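import Pool.Agent.H69.LQ.Lib

/-!
# MP_8f7db2_an: row EX: the first exit
-/

set_option autoImplicit false

open MeasureTheory Metric Set
open scoped ENNReal
open Pool.Agent.H85.LK (E adm lam Ann)
open Pool.Agent.H69.LQ

namespace Pool.Agent.H11.LQ

theorem pf_EX : T_EX := by
  intro N Ω a b _ ha hab hΩ hball
  set K : Sp N → Set ℝ := fun θ => {r | r ∈ Icc a b ∧ (r • (θ : E N) ∉ Ω ∨ r = b)} with hK
  have hcl : ∀ θ, IsClosed (K θ) := by
    intro θ
    have h1 : Continuous fun r : ℝ => r • (θ : E N) := by fun_prop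
    have h2 : K θ = Icc a b ∩ ((fun r : ℝ => r • (θ : E N)) ⁻¹' Ωᶜ ∪ {b}) := by
      ext r
      simp only [hK, mem_ofPred_eq, mem_inter_iff, mem_union, mem_preimage, mem_compl_iff,
        mem_singleton_iff]
    rw [h2]
    exact isClosed_Icc.inter ((hΩ.isClosed_compl.preimage h1).union isClosed_singleton)
  have hb : ∀ θ, b ∈ K θ := fun θ => ⟨⟨hab.le, le_rfl⟩, Or.inr rfl⟩
  have hbd : ∀ θ, BddBelow (K θ) := fun θ => ⟨a, fun r hr => hr.1.1⟩
  set R : Sp N → ℝ := fun θ => sInf (K θ) with hR
  have hmem : ∀ θ, R θ ∈ K θ := fun θ => (hcl θ).csInf_mem ⟨b, hb θ⟩ (hbd θ)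
  have hle : ∀ θ r, r ∈ K θ → R θ ≤ r := fun θ r hr => csInf_le (hbd θ) hr
  have hn : ∀ (θ : Sp N) (r : ℝ), 0 ≤ r → r ≤ a → r • (θ : E N) ∈ Ω := by
    intro θ r h0 hr
    apply hball
    rw [mem_closedBall_zero_iff, norm_smul, Real.norm_of_nonneg h0]
    have : ‖(θ : E N)‖ = 1 := by simp
    rw [this, mul_one]
    exact hr
  have hins : ∀ (θ : Sp N) (r : ℝ), 0 ≤ r → r < R θ → r • (θ : E N) ∈ Ω := by
    intro θ r h0 hr
    rcases le_or_gt r a with h | h
    · exact hn θ r h0 h
    · by_contra hcon
      have h1 : r ∈ K θ := ⟨⟨h.le, hr.le.trans (hmem θ).1.2⟩, Or.inl hcon⟩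
      exact absurd (hle θ r h1) (not_le.mpr hr)
  refine ⟨R, ?_, ?_, ?_, hins, ?_⟩
  · refine measurable_of_Ioi fun c => ?_
    by_cases hc : c < b
    · have h1 : R ⁻¹' Ioi c = {θ : Sp N | ∀ r ∈ Icc a c, r • (θ : E N) ∈ Ω} := by
        ext θ
        rw [mem_preimage, mem_Ioi, mem_ofPred_eq]
        constructor
        · intro h r hr
          exact hins θ r (ha.le.trans hr.1) (hr.2.trans_lt h)
        · intro h
          by_contra hcon
          push Not at hcon
          have h2 := hmem θ
          rcases h2.2 with h3 | h3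
          · exact h3 (h (R θ) ⟨h2.1.1, hcon⟩)
          · rw [h3] at hcon
            linarith
      have h2 : IsOpen {θ : Sp N | ∀ r ∈ Icc a c, r • (θ : E N) ∈ Ω} := by
        rw [isOpen_iff_eventually]
        intro θ hθ
        refine isCompact_Icc.eventually_forall_of_forall_eventually fun r hr => ?_
        have h3 : Continuous fun z : Sp N × ℝ => z.2 • (z.1 : E N) := by fun_prop
        exact (hΩ.preimage h3).mem_nhds (hθ r hr)
      rw [h1]
      exact h2.measurableSet
    · have h1 : R ⁻¹' Ioi c = ∅ := by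
        ext θ
        rw [mem_preimage, mem_Ioi]
        constructor
        · intro h
          have := (hmem θ).1.2
          push Not at hc
          linarith
        · intro h
          exact absurd h (notMem_empty _)
      rw [h1]
      exact MeasurableSet.empty
  · intro θ
    have h1 := hmem θ
    rcases h1.1.1.lt_or_eq with h2 | h2
    · exact h2
    · exfalso
      rcases h1.2 with h3 | h3
      · apply h3
        rw [← h2]
        exact hn θ a ha.le le_rfl
      · rw [← h2] at h3
        linarith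
  · intro θ
    exact (hmem θ).1.2
  · intro θ h
    rcases (hmem θ).2 with h3 | h3
    · exact h3
    · rw [h3] at h
      exact absurd h (lt_irrefl _)

end Pool.Agent.H11.LQ
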